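import Mathlib

/-!
# Ternary cubics and the transpose-inverse twist

`V = S^3(k^3)` and its twist by `σ : g ↦ (g^T)⁻¹` are birationally isomorphic as modules over
`G = SL_3/μ_3` (the case `d = 3` of the problem; the answer is yes).

The statement and all definitions it uses come first, up to `BirationallyIsomorphic`; the main
theorem `result` is at the end of the file.

Idea.  Write `f`, `φ` for symmetric tensors in `S^3(k^3)` and in its twist, with slices `F_a`,
`Φ_a` (symmetric `3 × 3` matrices).  The endomorphism `R(X) = ∑ F_a X^T Φ_a` of the space of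
`3 × 3` matrices is equivariant, and its transpose-conjugate is the one of `(φ, f)`.  The equation
`B(f, φ) = R(1) = 0` is a system of nine linear equations for the ten coordinates of `φ`; the
vector `c(f)` of signed maximal minors spans the kernel for general `f`, and the relation
`B(f, φ) = 0` is symmetric in `f` and `φ`.  On the kernel line one normalises by
`tr R^3 = tr R^4`, which has bidegrees `(3,3)` and `(4,4)`.  The resulting rational map
`f ↦ φ` is an equivariant involution.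
-/

set_option autoImplicit false
set_option linter.unusedSectionVars false

namespace Pool.Agent.Results.MP_107daa_ag.TernaryCubics

open Matrix
open scoped Kronecker MatrixGroups

/-- `V = S^d(k^d)`: the forms of degree `d` in `X_0, ..., X_(d-1)`, where `X_j` stands for the
`j`-th standard basis vector of `k^d`. -/
abbrev V (k : Type*) [Field k] (d : ℕ) : Submodule k (MvPolynomial (Fin d) k) :=
  MvPolynomial.homogeneousSubmodule (Fin d) k d

/-- The algebra homomorphism extending the linear map `g` of `k^d`: it sends the basis vector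
`X_j` to `g X_j = ∑ i, g i j X_i`. -/
noncomputable def subst {k : Type*} [Field k] {d : ℕ} (g : Matrix (Fin d) (Fin d) k) :
    MvPolynomial (Fin d) k →ₐ[k] MvPolynomial (Fin d) k :=
  MvPolynomial.aeval fun j => ∑ i, MvPolynomial.C (g i j) * MvPolynomial.X i

section rep

variable {k : Type*} [Field k] {d : ℕ}

lemma subst_X (g : Matrix (Fin d) (Fin d) k) (j : Fin d) :
    subst g (MvPolynomial.X j) = ∑ i, MvPolynomial.C (g i j) * MvPolynomial.X i := by
  simp [subst]

lemma subst_mem (g : Matrix (Fin d) (Fin d) k) {f : MvPolynomial (Fin d) k} (hf : f ∈ V k d) :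
    subst g f ∈ V k d := by
  rw [MvPolynomial.mem_homogeneousSubmodule] at hf ⊢
  have := hf.aeval (fun j => ∑ i, MvPolynomial.C (g i j) * MvPolynomial.X i) (n := 1)
    fun j => MvPolynomial.IsHomogeneous.sum _ _ _ fun i _ => MvPolynomial.isHomogeneous_C_mul_X _ _
  rwa [one_mul] at this

lemma subst_one : subst (1 : Matrix (Fin d) (Fin d) k) = AlgHom.id k _ := by
  apply MvPolynomial.algHom_ext
  intro j
  rw [subst_X, Finset.sum_eq_single j]
  · simp
  · intro i _ hij
    simp [Matrix.one_apply_ne hij]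
  · simp

lemma subst_mul (g h : Matrix (Fin d) (Fin d) k) : subst (g * h) = (subst g).comp (subst h) := by
  apply MvPolynomial.algHom_ext
  intro j
  rw [AlgHom.comp_apply, subst_X, subst_X, map_sum]
  simp only [map_mul, subst_X, Matrix.mul_apply, map_sum, Finset.sum_mul, Finset.mul_sum,
    MvPolynomial.algHom_C, MvPolynomial.algebraMap_eq]
  rw [Finset.sum_comm]
  refine Finset.sum_congr rfl fun i _ => Finset.sum_congr rfl fun l _ => ?_
  ring

lemma subst_scalar (r : k) {f : MvPolynomial (Fin d) k} (hf : f ∈ V k d) (hr : r ^ d = 1) :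
    subst (Matrix.scalar (Fin d) r) f = f := by
  rw [MvPolynomial.mem_homogeneousSubmodule] at hf
  have h1 : ∀ j : Fin d, subst (Matrix.scalar (Fin d) r) (MvPolynomial.X j) =
      MvPolynomial.C r * MvPolynomial.X j := by
    intro j
    rw [subst_X, Finset.sum_eq_single j]
    · simp
    · intro i _ hij
      simp [Matrix.scalar_apply, Matrix.diagonal_apply_ne _ hij]
    · simp
  conv_lhs => rw [f.as_sum]
  conv_rhs => rw [f.as_sum]
  rw [map_sum]
  refine Finset.sum_congr rfl fun m hm => ?_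
  have hd : m.degree = d := by
    by_contra hne
    exact (MvPolynomial.mem_support_iff.mp hm) (hf.coeff_eq_zero hne)
  rw [MvPolynomial.monomial_eq, map_mul, MvPolynomial.algHom_C, MvPolynomial.algebraMap_eq]
  congr 1
  rw [Finsupp.prod, map_prod]
  simp only [map_pow, h1, mul_pow]
  rw [Finset.prod_mul_distrib, Finset.prod_pow_eq_pow_sum]
  have : ∑ i ∈ m.support, m i = d := hd
  rw [this, ← map_pow, hr, map_one, one_mul]

end rep

/-- The representation of `SL_d(k)` on `V`. -/
noncomputable def slRep (k : Type*) [Field k] (d : ℕ) :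
    Representation k (SpecialLinearGroup (Fin d) k) (V k d) where
  toFun g := (subst (g : Matrix (Fin d) (Fin d) k)).toLinearMap.restrict fun _ hf => subst_mem _ hf
  map_one' := by
    ext f
    simp [subst_one]
  map_mul' g h := by
    ext f
    simp [subst_mul]

/-- The group `G = SL_d/μ_d` (its `k`-points if `k` is algebraically closed): `SL_d(k)` modulo
its centre, which consists of the scalar matrices `ζ I` with `ζ ^ d = 1`. -/
abbrev G (k : Type*) [Field k] (d : ℕ) : Type _ :=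
  SpecialLinearGroup (Fin d) k ⧸ Subgroup.center (SpecialLinearGroup (Fin d) k)

/-- The `G`-module `V = S^d(k^d)`: the representation of `SL_d(k)` on `V` factors through `G`. -/
noncomputable def gRep (k : Type*) [Field k] (d : ℕ) : Representation k (G k d) (V k d) :=
  QuotientGroup.lift _ (slRep k d) (by
    intro g hg
    obtain ⟨r, hr, hg⟩ := Matrix.SpecialLinearGroup.mem_center_iff.mp hg
    rw [Fintype.card_fin] at hr
    rw [MonoidHom.mem_ker]
    refine LinearMap.ext fun f => Subtype.ext ?_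
    have := subst_scalar r f.2 hr
    rw [hg] at this
    exact this)

lemma transpose_inv {k : Type*} [Field k] {d : ℕ} (g : SpecialLinearGroup (Fin d) k) :
    (g⁻¹).transpose = (g.transpose)⁻¹ := by
  apply Subtype.ext
  simp [Matrix.SpecialLinearGroup.coe_inv, Matrix.adjugate_transpose]

lemma transpose_mul {k : Type*} [Field k] {d : ℕ} (g h : SpecialLinearGroup (Fin d) k) :
    (g * h).transpose = h.transpose * g.transpose := by
  apply Subtype.ext
  simp

/-- The automorphism `g ↦ (g^T)⁻¹` of `SL_d(k)`. -/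
def sigmaSL (k : Type*) [Field k] (d : ℕ) :
    SpecialLinearGroup (Fin d) k ≃* SpecialLinearGroup (Fin d) k where
  toFun g := g.transpose⁻¹
  invFun g := g.transpose⁻¹
  left_inv g := by
    change (g.transpose⁻¹).transpose⁻¹ = g
    rw [transpose_inv, inv_inv]
    exact Subtype.ext (Matrix.transpose_transpose _)
  right_inv g := by
    change (g.transpose⁻¹).transpose⁻¹ = g
    rw [transpose_inv, inv_inv]
    exact Subtype.ext (Matrix.transpose_transpose _)
  map_mul' g h := by
    change (g * h).transpose⁻¹ = g.transpose⁻¹ * h.transpose⁻¹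
    rw [transpose_mul, _root_.mul_inv_rev]

/-- The automorphism `σ` of `G` induced by `g ↦ (g^T)⁻¹`. -/
def sigma (k : Type*) [Field k] (d : ℕ) : G k d ≃* G k d :=
  QuotientGroup.congr _ _ (sigmaSL k d)
    (Subgroup.characteristic_iff_map_eq.mp Subgroup.centerCharacteristic (sigmaSL k d))

/-- Polynomial functions on a (finite-dimensional) vector space: the `k`-algebra of functions
generated by the linear functionals. -/
def PolyFun (k : Type*) [Field k] (W : Type*) [AddCommGroup W] [Module k W] :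
    Subalgebra k (W → k) :=
  Algebra.adjoin k (Set.range fun ℓ : Module.Dual k W => (ℓ : W → k))

/-- Polynomial maps between (finite-dimensional) vector spaces. -/
def IsPolyMap (k : Type*) [Field k] {W W' : Type*} [AddCommGroup W] [Module k W]
    [AddCommGroup W'] [Module k W'] (P : W → W') : Prop :=
  ∀ ℓ : Module.Dual k W', (fun x => ℓ (P x)) ∈ PolyFun k W

/-- The rational map `P / a`, regular where `a ≠ 0`. -/
def frac {k : Type*} [Field k] {W W' : Type*} [AddCommGroup W'] [Module k W']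
    (a : W → k) (P : W → W') (x : W) : W' := (a x)⁻¹ • P x

/-- Two finite-dimensional `H`-modules `W`, `W'` are birationally `H`-isomorphic: there are
nonempty principal open sets `{a ≠ 0}` of `W` and `{b ≠ 0}` of `W'` and mutually inverse
isomorphisms `P / a`, `Q / b` between them, and the rational map `P / a` is `H`-equivariant. -/
def BirationallyIsomorphic {k H W W' : Type*} [Field k] [Group H] [AddCommGroup W] [Module k W]
    [AddCommGroup W'] [Module k W'] (ρ : Representation k H W) (ρ' : Representation k H W') :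
    Prop :=
  ∃ (a : W → k) (P : W → W') (b : W' → k) (Q : W' → W),
    a ∈ PolyFun k W ∧ IsPolyMap k P ∧ b ∈ PolyFun k W' ∧ IsPolyMap k Q ∧ a ≠ 0 ∧ b ≠ 0 ∧
    (∀ x, a x ≠ 0 → b (frac a P x) ≠ 0 ∧ frac b Q (frac a P x) = x) ∧
    (∀ y, b y ≠ 0 → a (frac b Q y) ≠ 0 ∧ frac a P (frac b Q y) = y) ∧
    (∀ h x, a x ≠ 0 → a (ρ h x) ≠ 0 → frac a P (ρ h x) = ρ' h (frac a P x))

section poly

variable {k W : Type*} [Field k] [AddCommGroup W] [Module k W]

lemma pf_const (c : k) : (fun _ : W => c) ∈ PolyFun k W := (PolyFun k W).algebraMap_mem c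

lemma pf_mul {f g : W → k} (hf : f ∈ PolyFun k W) (hg : g ∈ PolyFun k W) :
    (fun x => f x * g x) ∈ PolyFun k W := (PolyFun k W).mul_mem hf hg

lemma pf_sum {ι : Type*} (s : Finset ι) {f : ι → W → k} (hf : ∀ i ∈ s, f i ∈ PolyFun k W) :
    (fun x => ∑ i ∈ s, f i x) ∈ PolyFun k W := by
  have := (PolyFun k W).sum_mem hf
  convert this using 1
  funext x
  simp

lemma pf_prod {ι : Type*} (s : Finset ι) {f : ι → W → k} (hf : ∀ i ∈ s, f i ∈ PolyFun k W) :
    (fun x => ∏ i ∈ s, f i x) ∈ PolyFun k W := by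
  have := (PolyFun k W).prod_mem hf
  convert this using 1
  funext x
  simp

lemma pf_pow {f : W → k} (hf : f ∈ PolyFun k W) (n : ℕ) :
    (fun x => f x ^ n) ∈ PolyFun k W := (PolyFun k W).pow_mem hf n

lemma pf_det {n : Type*} [Fintype n] [DecidableEq n] {M : W → Matrix n n k}
    (hM : ∀ i j, (fun x => M x i j) ∈ PolyFun k W) : (fun x => (M x).det) ∈ PolyFun k W := by
  simp only [Matrix.det_apply']
  exact pf_sum _ fun s _ => pf_mul (pf_const _) (pf_prod _ fun i _ => hM _ _)

lemma pf_matpow {n : Type*} [Fintype n] [DecidableEq n] {M : W → Matrix n n k}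
    (hM : ∀ i j, (fun x => M x i j) ∈ PolyFun k W) (m : ℕ) :
    ∀ i j, (fun x => ((M x) ^ m) i j) ∈ PolyFun k W := by
  induction m with
  | zero =>
    intro i j
    simp only [pow_zero]
    exact pf_const _
  | succ m ih =>
    intro i j
    simp only [pow_succ, Matrix.mul_apply]
    exact pf_sum _ fun l _ => pf_mul (ih _ _) (hM _ _)

lemma pf_trace {n : Type*} [Fintype n] [DecidableEq n] {M : W → Matrix n n k}
    (hM : ∀ i j, (fun x => M x i j) ∈ PolyFun k W) : (fun x => (M x).trace) ∈ PolyFun k W := by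
  simp only [Matrix.trace]
  exact pf_sum _ fun l _ => hM _ _

end poly

section core

variable {k : Type*} [Field k]

/-- third order tensors -/
abbrev Ten (k : Type*) : Type _ := Fin 3 → Fin 3 → Fin 3 → k

/-- slices of a tensor -/
def sl (t : Ten k) (a : Fin 3) : Matrix (Fin 3) (Fin 3) k := Matrix.of fun i j => t i j a

/-- the bilinear pairing `B` -/
def Bm (t u : Ten k) : Matrix (Fin 3) (Fin 3) k := ∑ a, sl t a * sl u a

/-- the flip matrix -/
def Sw (k : Type*) [Field k] : Matrix (Fin 3 × Fin 3) (Fin 3 × Fin 3) k :=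
  (1 : Matrix (Fin 3 × Fin 3) (Fin 3 × Fin 3) k).submatrix id Prod.swap

/-- the endomorphism of matrices -/
def Rm (t u : Ten k) : Matrix (Fin 3 × Fin 3) (Fin 3 × Fin 3) k :=
  (∑ a, sl t a ⊗ₖ sl u a) * Sw k

/-- the action of a matrix on tensors -/
def act (g : Matrix (Fin 3) (Fin 3) k) (t : Ten k) : Ten k := fun i j a =>
  ∑ p, ∑ q, ∑ r, g i p * g j q * g a r * t p q r

lemma sl_act (g : Matrix (Fin 3) (Fin 3) k) (t : Ten k) (a : Fin 3) :
    sl (act g t) a = ∑ r, g a r • (g * sl t r * gᵀ) := by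
  ext i j
  simp only [sl, act, Matrix.of_apply, Matrix.sum_apply, Matrix.smul_apply, Matrix.mul_apply,
    Matrix.transpose_apply, smul_eq_mul, Fin.sum_univ_three]
  ring

lemma contr {M M' N : Type*} [AddCommGroup M] [Module k M] [AddCommGroup M'] [Module k M']
    [AddCommGroup N] [Module k N] (β : M →ₗ[k] M' →ₗ[k] N) {g h : Matrix (Fin 3) (Fin 3) k}
    (hgh : gᵀ * h = 1) (X : Fin 3 → M) (Y : Fin 3 → M') :
    ∑ a, β (∑ r, g a r • X r) (∑ s, h a s • Y s) = ∑ r, β (X r) (Y r) := by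
  have key : ∀ r s, ∑ a, g a r * h a s = if r = s then 1 else 0 := by
    intro r s
    have := congrFun (congrFun hgh r) s
    simpa [Matrix.mul_apply, Matrix.one_apply] using this
  calc ∑ a, β (∑ r, g a r • X r) (∑ s, h a s • Y s)
      = ∑ a, ∑ r, ∑ s, (g a r * h a s) • β (X r) (Y s) := by
        refine Finset.sum_congr rfl fun a _ => ?_
        simp only [map_sum, map_smul, LinearMap.sum_apply, LinearMap.smul_apply, smul_smul,
          Finset.smul_sum]
        rw [Finset.sum_comm]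
        refine Finset.sum_congr rfl fun r _ => Finset.sum_congr rfl fun s _ => ?_
        rw [mul_comm]
    _ = ∑ r, ∑ s, (∑ a, g a r * h a s) • β (X r) (Y s) := by
        rw [Finset.sum_comm]
        refine Finset.sum_congr rfl fun r _ => ?_
        rw [Finset.sum_comm]
        refine Finset.sum_congr rfl fun s _ => ?_
        rw [Finset.sum_smul]
    _ = ∑ r, β (X r) (Y r) := by
        simp [key]

lemma Bm_act {g h : Matrix (Fin 3) (Fin 3) k} (hgh : gᵀ * h = 1) (t u : Ten k) :
    Bm (act g t) (act h u) = g * Bm t u * hᵀ := by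
  unfold Bm
  simp only [sl_act]
  have := contr (LinearMap.mul k (Matrix (Fin 3) (Fin 3) k)) hgh
    (fun r => g * sl t r * gᵀ) (fun s => h * sl u s * hᵀ)
  simp only [LinearMap.mul_apply'] at this
  rw [this, Finset.mul_sum, Finset.sum_mul]
  refine Finset.sum_congr rfl fun r _ => ?_
  calc g * sl t r * gᵀ * (h * sl u r * hᵀ) = g * sl t r * (gᵀ * h) * (sl u r * hᵀ) := by
        simp only [Matrix.mul_assoc]
    _ = g * (sl t r * sl u r) * hᵀ := by rw [hgh]; simp only [Matrix.mul_one, Matrix.mul_assoc]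

lemma kron_Sw (A B : Matrix (Fin 3) (Fin 3) k) : (A ⊗ₖ B) * Sw k = Sw k * (B ⊗ₖ A) := by
  ext ⟨i, i'⟩ ⟨j', j⟩
  simp only [Sw, Matrix.mul_apply, Matrix.submatrix_apply, Matrix.one_apply, id,
    Matrix.kroneckerMap_apply, mul_ite, mul_one, mul_zero, ite_mul, one_mul, zero_mul]
  rw [Finset.sum_eq_single (j, j'), Finset.sum_eq_single (i', i)]
  · simp [mul_comm]
  · rintro ⟨a, b⟩ _ hab
    rw [if_neg]
    simp only [Prod.swap_prod_mk, Prod.mk.injEq, not_and]
    rintro rfl rfl
    exact hab rfl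
  · simp
  · rintro ⟨a, b⟩ _ hab
    rw [if_neg]
    simpa using hab
  · simp

lemma Rm_act {g h : Matrix (Fin 3) (Fin 3) k} (hgh : gᵀ * h = 1) (t u : Ten k) :
    Rm (act g t) (act h u) = (g ⊗ₖ h) * Rm t u * (hᵀ ⊗ₖ gᵀ) := by
  unfold Rm
  simp only [sl_act]
  have := contr (Matrix.kroneckerBilinear : Matrix (Fin 3) (Fin 3) k →ₗ[k]
    Matrix (Fin 3) (Fin 3) k →ₗ[k] Matrix (Fin 3 × Fin 3) (Fin 3 × Fin 3) k) hgh
    (fun r => g * sl t r * gᵀ) (fun s => h * sl u s * hᵀ)
  change (∑ a, (∑ r, g a r • (g * sl t r * gᵀ)) ⊗ₖ (∑ s, h a s • (h * sl u s * hᵀ)))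
    = ∑ r, (g * sl t r * gᵀ) ⊗ₖ (h * sl u r * hᵀ) at this
  rw [this]
  simp only [Matrix.mul_kronecker_mul]
  rw [← Finset.sum_mul, ← Finset.mul_sum, Matrix.mul_assoc _ (gᵀ ⊗ₖ hᵀ) _, kron_Sw]
  simp only [Matrix.mul_assoc]

lemma kron_inv {g h : Matrix (Fin 3) (Fin 3) k} (hgh : gᵀ * h = 1) :
    (hᵀ ⊗ₖ gᵀ) * (g ⊗ₖ h) = 1 := by
  rw [← Matrix.mul_kronecker_mul, hgh]
  have : hᵀ * g = 1 := by
    have := congrArg Matrix.transpose hgh
    simpa [Matrix.transpose_mul] using this
  rw [this, Matrix.one_kronecker_one]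

lemma trace_conj_pow {n : Type*} [Fintype n] [DecidableEq n] {C D : Matrix n n k}
    (hDC : D * C = 1) (R : Matrix n n k) (m : ℕ) :
    ((C * R * D) ^ m).trace = (R ^ m).trace := by
  have hCD : C * D = 1 := mul_eq_one_comm.mp hDC
  have : (C * R * D) ^ m = C * R ^ m * D := by
    induction m with
    | zero => simp [hCD]
    | succ m ih =>
      rw [pow_succ, ih, pow_succ]
      calc C * R ^ m * D * (C * R * D) = C * R ^ m * (D * C) * (R * D) := by
            simp only [Matrix.mul_assoc]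
        _ = _ := by rw [hDC]; simp only [Matrix.mul_one, Matrix.mul_assoc]
  rw [this, Matrix.trace_mul_cycle, hDC, Matrix.one_mul]

/-- the traces of powers -/
def trp (m : ℕ) (t u : Ten k) : k := ((Rm t u) ^ m).trace

lemma trp_act {g h : Matrix (Fin 3) (Fin 3) k} (hgh : gᵀ * h = 1) (m : ℕ) (t u : Ten k) :
    trp m (act g t) (act h u) = trp m t u := by
  unfold trp
  rw [Rm_act hgh, trace_conj_pow (kron_inv hgh)]

lemma Rm_apply (t u : Ten k) (i i' j' j : Fin 3) :
    Rm t u (i, i') (j', j) = ∑ a, t i j a * u i' j' a := by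
  unfold Rm
  rw [Finset.sum_mul, Matrix.sum_apply]
  refine Finset.sum_congr rfl fun a _ => ?_
  simp only [Sw, Matrix.mul_apply, Matrix.submatrix_apply, Matrix.one_apply, id,
    Matrix.kroneckerMap_apply, mul_ite, mul_one, mul_zero, sl, Matrix.of_apply]
  rw [Finset.sum_eq_single (j, j')]
  · simp
  · rintro ⟨a, b⟩ _ hab
    rw [if_neg]
    simpa using hab
  · simp

lemma Rm_swap (t u : Ten k) : Rm u t = (Rm t u).submatrix Prod.swap Prod.swap := by
  ext ⟨i, i'⟩ ⟨j', j⟩
  rw [Matrix.submatrix_apply]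
  simp only [Prod.swap_prod_mk, Rm_apply]
  exact Finset.sum_congr rfl fun a _ => mul_comm _ _

lemma trp_swap (m : ℕ) (t u : Ten k) : trp m u t = trp m t u := by
  unfold trp
  have h : ∀ M : Matrix (Fin 3 × Fin 3) (Fin 3 × Fin 3) k,
      M.submatrix Prod.swap Prod.swap = Matrix.reindexAlgEquiv k k (Equiv.prodComm _ _) M := by
    intro M
    rfl
  rw [Rm_swap, h, ← map_pow]
  exact Equiv.sum_comp (Equiv.prodComm (Fin 3) (Fin 3)) fun i => ((Rm t u) ^ m) i i

lemma Rm_smul_left (s : k) (t u : Ten k) : Rm (s • t) u = s • Rm t u := by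
  ext ⟨i, i'⟩ ⟨j', j⟩
  simp only [Rm_apply, Matrix.smul_apply, Pi.smul_apply, smul_eq_mul, Finset.mul_sum, mul_assoc]

lemma Rm_smul_right (s : k) (t u : Ten k) : Rm t (s • u) = s • Rm t u := by
  ext ⟨i, i'⟩ ⟨j', j⟩
  simp only [Rm_apply, Matrix.smul_apply, Pi.smul_apply, smul_eq_mul, Finset.mul_sum]
  exact Finset.sum_congr rfl fun a _ => by ring

lemma trp_smul_left (m : ℕ) (s : k) (t u : Ten k) : trp m (s • t) u = s ^ m * trp m t u := by
  unfold trp
  rw [Rm_smul_left, smul_pow, Matrix.trace_smul, smul_eq_mul]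

lemma trp_smul_right (m : ℕ) (s : k) (t u : Ten k) : trp m t (s • u) = s ^ m * trp m t u := by
  unfold trp
  rw [Rm_smul_right, smul_pow, Matrix.trace_smul, smul_eq_mul]

lemma Bm_apply (t u : Ten k) (i i' : Fin 3) : Bm t u i i' = ∑ a, ∑ j, t i j a * u j i' a := by
  simp [Bm, Matrix.sum_apply, Matrix.mul_apply, sl]

/-- symmetric tensors -/
def IsSym (t : Ten k) : Prop := (∀ i j a, t i j a = t j i a) ∧ (∀ i j a, t i j a = t i a j)

lemma Bm_swap {t u : Ten k} (ht : IsSym t) (hu : IsSym u) : Bm u t = (Bm t u)ᵀ := by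
  ext i i'
  rw [Matrix.transpose_apply, Bm_apply, Bm_apply]
  refine Finset.sum_congr rfl fun a _ => Finset.sum_congr rfl fun j _ => ?_
  rw [ht.1 j i' a, hu.1 i j a, mul_comm]

lemma Bm_smul_left (s : k) (t u : Ten k) : Bm (s • t) u = s • Bm t u := by
  ext i i'
  simp only [Bm_apply, Matrix.smul_apply, Pi.smul_apply, smul_eq_mul, Finset.mul_sum, mul_assoc]


/-- numbering of the ten monomials -/
def idx : Fin 3 → Fin 3 → Fin 3 → Fin 10 :=
  ![![![0, 1, 2], ![1, 3, 4], ![2, 4, 5]], ![![1, 3, 4], ![3, 6, 7], ![4, 7, 8]],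
    ![![2, 4, 5], ![4, 7, 8], ![5, 8, 9]]]

/-- representatives -/
def rep : Fin 10 → Fin 3 × Fin 3 × Fin 3 :=
  ![(0, 0, 0), (0, 0, 1), (0, 0, 2), (0, 1, 1), (0, 1, 2), (0, 2, 2), (1, 1, 1), (1, 1, 2),
    (1, 2, 2), (2, 2, 2)]

lemma idx_rep : ∀ r, idx (rep r).1 (rep r).2.1 (rep r).2.2 = r := by decide

lemma idx_comm1 : ∀ i j a, idx i j a = idx j i a := by decide

lemma idx_comm2 : ∀ i j a, idx i j a = idx i a j := by decide

/-- the symmetric tensor with given coordinates -/
def tens (v : Fin 10 → k) : Ten k := fun i j a => v (idx i j a)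

lemma tens_sym (v : Fin 10 → k) : IsSym (tens v) :=
  ⟨fun i j a => congrArg v (idx_comm1 i j a), fun i j a => congrArg v (idx_comm2 i j a)⟩

lemma tens_smul (s : k) (v : Fin 10 → k) : tens (s • v) = s • tens v := rfl

lemma tens_inj {v w : Fin 10 → k} (h : tens v = tens w) : v = w := by
  funext r
  have := congrFun (congrFun (congrFun h (rep r).1) (rep r).2.1) (rep r).2.2
  simpa [tens, idx_rep] using this

lemma exists_tens {t : Ten k} (ht : IsSym t) : ∃ v, tens v = t := by
  refine ⟨fun r => t (rep r).1 (rep r).2.1 (rep r).2.2, ?_⟩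
  obtain ⟨h1, h2⟩ := ht
  funext i j a
  fin_cases i <;> fin_cases j <;> fin_cases a <;>
    first
      | rfl
      | exact h1 _ _ _
      | exact h2 _ _ _
      | exact (h1 _ _ _).trans (h2 _ _ _)
      | exact (h2 _ _ _).trans (h1 _ _ _)
      | exact ((h1 _ _ _).trans (h2 _ _ _)).trans (h1 _ _ _)

lemma act_sym {g : Matrix (Fin 3) (Fin 3) k} {t : Ten k} (ht : IsSym t) : IsSym (act g t) := by
  refine ⟨fun i j a => ?_, fun i j a => ?_⟩
  · unfold act
    rw [Finset.sum_comm]
    refine Finset.sum_congr rfl fun q _ => Finset.sum_congr rfl fun p _ =>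
      Finset.sum_congr rfl fun r _ => ?_
    rw [ht.1 p q r]
    ring
  · unfold act
    refine Finset.sum_congr rfl fun p _ => ?_
    rw [Finset.sum_comm]
    refine Finset.sum_congr rfl fun q _ => Finset.sum_congr rfl fun r _ => ?_
    rw [ht.2 p r q]
    ring

/-- the matrix of the linear map `B(x, ·)` -/
def MM (x : Fin 10 → k) : Matrix (Fin 9) (Fin 10) k := Matrix.of fun p r =>
  Bm (tens x) (tens (Pi.single r 1)) (finProdFinEquiv.symm p : Fin 3 × Fin 3).1
    (finProdFinEquiv.symm p : Fin 3 × Fin 3).2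

lemma MM_mulVec (x y : Fin 10 → k) (p : Fin 9) :
    (MM x *ᵥ y) p = Bm (tens x) (tens y) (finProdFinEquiv.symm p : Fin 3 × Fin 3).1
      (finProdFinEquiv.symm p : Fin 3 × Fin 3).2 := by
  simp only [MM, Matrix.mulVec, dotProduct, Matrix.of_apply, Bm_apply, tens, Finset.sum_mul]
  rw [Finset.sum_comm]
  refine Finset.sum_congr rfl fun a _ => ?_
  rw [Finset.sum_comm]
  refine Finset.sum_congr rfl fun j _ => ?_
  simp only [Pi.single_apply, mul_ite, mul_one, mul_zero, ite_mul, zero_mul]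
  rw [Finset.sum_ite_eq]
  simp

lemma MM_mulVec_eq_zero {x y : Fin 10 → k} :
    MM x *ᵥ y = 0 ↔ Bm (tens x) (tens y) = 0 := by
  constructor
  · intro h
    ext i j
    have := congrFun h (finProdFinEquiv (i, j))
    rw [MM_mulVec] at this
    simpa using this
  · intro h
    funext p
    rw [MM_mulVec, h]
    rfl

/-- vector of signed maximal minors -/
def cof {n : ℕ} (M : Matrix (Fin n) (Fin (n + 1)) k) : Fin (n + 1) → k :=
  fun r => (-1) ^ (r : ℕ) * (M.submatrix id r.succAbove).det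

lemma det_cons {n : ℕ} (M : Matrix (Fin n) (Fin (n + 1)) k) (w : Fin (n + 1) → k) :
    (Matrix.of (Fin.cons w M : Fin (n + 1) → Fin (n + 1) → k)).det = w ⬝ᵥ cof M := by
  rw [Matrix.det_succ_row_zero]
  refine Finset.sum_congr rfl fun r _ => ?_
  simp only [Matrix.of_apply, Fin.cons_zero, cof]
  have : (Matrix.of (Fin.cons w M : Fin (n + 1) → Fin (n + 1) → k)).submatrix Fin.succ
      r.succAbove = M.submatrix id r.succAbove := by
    ext i j
    simp
  rw [this]
  ring

lemma mulVec_cof {n : ℕ} (M : Matrix (Fin n) (Fin (n + 1)) k) : M *ᵥ cof M = 0 := by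
  funext i
  have := det_cons M (M i)
  have h0 : (Matrix.of (Fin.cons (M i) M : Fin (n + 1) → Fin (n + 1) → k)).det = 0 := by
    apply Matrix.det_zero_of_row_eq (i := 0) (j := i.succ) (Fin.succ_ne_zero i).symm
    funext j
    simp
  rw [h0] at this
  exact this.symm

lemma cof_cramer {n : ℕ} (M : Matrix (Fin n) (Fin (n + 1)) k) (w v : Fin (n + 1) → k)
    (hv : M *ᵥ v = 0) : (w ⬝ᵥ cof M) • v = (w ⬝ᵥ v) • cof M := by
  set A : Matrix (Fin (n + 1)) (Fin (n + 1)) k :=
    Matrix.of (Fin.cons w M : Fin (n + 1) → Fin (n + 1) → k) with hA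
  have h1 : A *ᵥ v = Pi.single 0 (w ⬝ᵥ v) := by
    funext i
    refine Fin.cases ?_ (fun i => ?_) i
    · simp [A, Matrix.mulVec]
    · have := congrFun hv i
      simpa [A, Matrix.mulVec] using this
  have h2 : A.adjugate *ᵥ (A *ᵥ v) = A.det • v := by
    rw [Matrix.mulVec_mulVec, Matrix.adjugate_mul, Matrix.smul_mulVec, Matrix.one_mulVec]
  rw [h1, det_cons] at h2
  rw [← h2]
  funext r
  have h3 : A.submatrix Fin.succ r.succAbove = M.submatrix id r.succAbove := by
    ext i j
    simp [A]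
  have h4 : (A.adjugate *ᵥ Pi.single 0 (w ⬝ᵥ v)) r = A.adjugate r 0 * (w ⬝ᵥ v) := by
    simp [Matrix.mulVec, dotProduct, Pi.single_apply]
  rw [h4, Matrix.adjugate_fin_succ_eq_det_submatrix, Fin.succAbove_zero, h3]
  simp only [Pi.smul_apply, smul_eq_mul, cof, Fin.val_zero, zero_add]
  ring

lemma exists_smul_cof {n : ℕ} {M : Matrix (Fin n) (Fin (n + 1)) k} {v : Fin (n + 1) → k}
    (hv : M *ᵥ v = 0) (hc : cof M ≠ 0) : ∃ s : k, v = s • cof M := by
  obtain ⟨r, hr⟩ := Function.ne_iff.mp hc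
  have h := cof_cramer M (Pi.single r 1) v hv
  simp only [single_one_dotProduct] at h
  refine ⟨(cof M r)⁻¹ * v r, ?_⟩
  rw [mul_smul, ← h, smul_smul, inv_mul_cancel₀ hr, one_smul]

lemma cof_ne_zero {n : ℕ} {M : Matrix (Fin n) (Fin (n + 1)) k} {v₀ : Fin (n + 1) → k}
    (h0 : v₀ ≠ 0) (h : ∀ v, M *ᵥ v = 0 → ∃ s : k, v = s • v₀) : cof M ≠ 0 := by
  obtain ⟨r, hr⟩ := Function.ne_iff.mp h0
  intro hc
  have hd := det_cons M (Pi.single r 1)
  rw [hc, dotProduct_zero] at hd
  obtain ⟨v, hv0, hv⟩ := Matrix.exists_mulVec_eq_zero_iff.mpr hd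
  have hM : M *ᵥ v = 0 := by
    funext i
    have := congrFun hv i.succ
    simpa [Matrix.mulVec] using this
  have hr0 : v r = 0 := by
    have := congrFun hv 0
    simpa [Matrix.mulVec] using this
  obtain ⟨s, rfl⟩ := h v hM
  have hs : s = 0 := by
    have : s * v₀ r = 0 := by simpa using hr0
    rcases mul_eq_zero.mp this with h | h
    · exact h
    · exact absurd h hr
  exact hv0 (by rw [hs, zero_smul])

lemma MM_smul (s : k) (x : Fin 10 → k) : MM (s • x) = s • MM x := by
  ext p r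
  simp only [MM, Matrix.of_apply, tens_smul, Bm_smul_left, Matrix.smul_apply]

lemma cof_smul {n : ℕ} (s : k) (M : Matrix (Fin n) (Fin (n + 1)) k) :
    cof (s • M) = s ^ n • cof M := by
  funext r
  simp only [cof, Pi.smul_apply, smul_eq_mul]
  have : (s • M).submatrix id r.succAbove = s • M.submatrix id r.succAbove := rfl
  rw [this, Matrix.det_smul, Fintype.card_fin]
  ring

/-- the kernel vector -/
def ker (x : Fin 10 → k) : Fin 10 → k := cof (MM x)

lemma ker_smul (s : k) (x : Fin 10 → k) : ker (s • x) = s ^ 9 • ker x := by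
  rw [ker, MM_smul, cof_smul, ker]

/-- `B` on coordinates -/
def BB (x y : Fin 10 → k) : Matrix (Fin 3) (Fin 3) k := Bm (tens x) (tens y)

lemma BB_swap (x y : Fin 10 → k) : BB y x = (BB x y)ᵀ := Bm_swap (tens_sym x) (tens_sym y)

lemma BB_ker (x : Fin 10 → k) : BB x (ker x) = 0 := MM_mulVec_eq_zero.mp (mulVec_cof _)

lemma exists_smul_ker {x v : Fin 10 → k} (hv : BB x v = 0) (hc : ker x ≠ 0) :
    ∃ s : k, v = s • ker x := exists_smul_cof (MM_mulVec_eq_zero.mpr hv) hc

lemma ker_ne_zero {x v₀ : Fin 10 → k} (h0 : v₀ ≠ 0)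
    (h : ∀ v, BB x v = 0 → ∃ s : k, v = s • v₀) : ker x ≠ 0 :=
  cof_ne_zero h0 fun v hv => h v (MM_mulVec_eq_zero.mp hv)

/-- the covariant of bidegree `(3,3)` -/
def II (x y : Fin 10 → k) : k := trp 3 (tens x) (tens y)

/-- the covariant of bidegree `(4,4)` -/
def KK (x y : Fin 10 → k) : k := trp 4 (tens x) (tens y)

lemma II_swap (x y : Fin 10 → k) : II y x = II x y := trp_swap _ _ _

lemma KK_swap (x y : Fin 10 → k) : KK y x = KK x y := trp_swap _ _ _

lemma II_smul (s r : k) (x y : Fin 10 → k) : II (s • x) (r • y) = s ^ 3 * r ^ 3 * II x y := by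
  rw [II, tens_smul, tens_smul, trp_smul_left, trp_smul_right, II, mul_assoc]

lemma KK_smul (s r : k) (x y : Fin 10 → k) : KK (s • x) (r • y) = s ^ 4 * r ^ 4 * KK x y := by
  rw [KK, tens_smul, tens_smul, trp_smul_left, trp_smul_right, KK, mul_assoc]

lemma ker_def (x : Fin 10 → k) : ker x = cof (MM x) := rfl

lemma II_def (x y : Fin 10 → k) : II x y = trp 3 (tens x) (tens y) := rfl

lemma KK_def (x y : Fin 10 → k) : KK x y = trp 4 (tens x) (tens y) := rfl

lemma BB_def (x y : Fin 10 → k) : BB x y = Bm (tens x) (tens y) := rfl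

lemma BB_smul_right (s : k) (x y : Fin 10 → k) : BB x (s • y) = s • BB x y := by
  rw [← Matrix.transpose_transpose (BB x (s • y)), ← BB_swap, BB, tens_smul,
    Bm_smul_left, Matrix.transpose_smul]
  congr 1
  rw [← BB, ← BB_swap]

attribute [irreducible] ker II KK BB

/-- the denominator -/
def den (x : Fin 10 → k) : k := II x (ker x) * KK x (ker x) * KK (ker x) (ker (ker x))

/-- the numerator -/
def num (x : Fin 10 → k) : Fin 10 → k :=
  (II x (ker x) ^ 2 * KK (ker x) (ker (ker x))) • ker x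

/-- the rational map -/
def FF (x : Fin 10 → k) : Fin 10 → k := (den x)⁻¹ • num x

lemma FF_eq {x : Fin 10 → k} (h : den x ≠ 0) : FF x = (II x (ker x) / KK x (ker x)) • ker x := by
  rw [FF, num, smul_smul]
  congr 1
  unfold den at *
  have h1 : II x (ker x) ≠ 0 := fun h0 => h (by rw [h0]; ring)
  have h2 : KK x (ker x) ≠ 0 := fun h0 => h (by rw [h0]; ring)
  have h3 : KK (ker x) (ker (ker x)) ≠ 0 := fun h0 => h (by rw [h0]; ring)
  field_simp

lemma II_zero (x : Fin 10 → k) : II x 0 = 0 := by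
  have := II_smul 1 0 x 0
  simpa using this

lemma KK_zero (x : Fin 10 → k) : KK x 0 = 0 := by
  have := KK_smul 1 0 x 0
  simpa using this

/-- characterisation of the value -/
lemma key {y v : Fin 10 → k} (hy : ker y ≠ 0) (hv : BB y v = 0) (hIK : II y v = KK y v)
    (hI : II y v ≠ 0) :
    II y (ker y) ≠ 0 ∧ KK y (ker y) ≠ 0 ∧ v = (II y (ker y) / KK y (ker y)) • ker y := by
  obtain ⟨s, rfl⟩ := exists_smul_ker hv hy
  have e1 := II_smul 1 s y (ker y)
  have e2 := KK_smul 1 s y (ker y)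
  simp only [one_smul, one_pow, one_mul] at e1 e2
  have hs : s ≠ 0 := by
    rintro rfl
    apply hI
    rw [e1]
    simp
  have h1 : II y (ker y) ≠ 0 := by
    intro h0
    apply hI
    rw [e1, h0, mul_zero]
  have h2 : KK y (ker y) ≠ 0 := by
    intro h0
    apply hI
    rw [hIK, e2, h0, mul_zero]
  refine ⟨h1, h2, ?_⟩
  congr 1
  rw [eq_div_iff h2]
  rw [e1, e2] at hIK
  have h3 : s ^ 3 ≠ 0 := pow_ne_zero _ hs
  apply mul_left_cancel₀ h3
  rw [hIK]
  ring

lemma den_facts {x : Fin 10 → k} (h : den x ≠ 0) : II x (ker x) ≠ 0 ∧ KK x (ker x) ≠ 0 ∧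
    KK (ker x) (ker (ker x)) ≠ 0 ∧ ker x ≠ 0 ∧ ker (ker x) ≠ 0 ∧ x ≠ 0 := by
  unfold den at h
  have h1 : II x (ker x) ≠ 0 := fun h0 => h (by rw [h0]; ring)
  have h2 : KK x (ker x) ≠ 0 := fun h0 => h (by rw [h0]; ring)
  have h3 : KK (ker x) (ker (ker x)) ≠ 0 := fun h0 => h (by rw [h0]; ring)
  refine ⟨h1, h2, h3, ?_, ?_, ?_⟩
  · intro h0
    rw [h0, II_zero] at h1
    exact h1 rfl
  · intro h0
    rw [h0, KK_zero] at h3
    exact h3 rfl
  · intro h0
    rw [h0, II_swap, II_zero] at h1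
    exact h1 rfl

/-- the rational map is an involution on the open set `den ≠ 0` -/
lemma FF_invol {x : Fin 10 → k} (h : den x ≠ 0) : den (FF x) ≠ 0 ∧ FF (FF x) = x := by
  obtain ⟨h1, h2, h3, h4, h5, h6⟩ := den_facts h
  have hF := FF_eq h
  set s := II x (ker x) / KK x (ker x) with hs
  have hs0 : s ≠ 0 := div_ne_zero h1 h2
  -- x is a multiple of ker (ker x)
  have hB : BB (ker x) x = 0 := by rw [BB_swap, BB_ker, Matrix.transpose_zero]
  obtain ⟨m, hm⟩ := exists_smul_ker hB h5
  have hm0 : m ≠ 0 := by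
    rintro rfl
    rw [zero_smul] at hm
    exact h6 hm
  have hkF : ker (FF x) = s ^ 9 • ker (ker x) := by rw [hF, ker_smul]
  have hkF0 : ker (FF x) ≠ 0 := by
    rw [hkF]
    exact smul_ne_zero (pow_ne_zero _ hs0) h5
  have hBF : BB (FF x) x = 0 := by
    rw [BB_swap, hF]
    rw [BB_smul_right, BB_ker, smul_zero, Matrix.transpose_zero]
  have hI1 : II (FF x) x = s ^ 3 * II x (ker x) := by
    rw [II_swap, hF]
    have := II_smul 1 s x (ker x)
    simpa using this
  have hK1 : KK (FF x) x = s ^ 4 * KK x (ker x) := by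
    rw [KK_swap, hF]
    have := KK_smul 1 s x (ker x)
    simpa using this
  have hIK : II (FF x) x = KK (FF x) x := by
    rw [hI1, hK1, pow_succ s 3, mul_assoc, hs, div_mul_cancel₀ _ h2]
  have hI : II (FF x) x ≠ 0 := by
    rw [hI1]
    exact mul_ne_zero (pow_ne_zero _ hs0) h1
  obtain ⟨k1, k2, k3⟩ := key hkF0 hBF hIK hI
  have hden : den (FF x) ≠ 0 := by
    unfold den
    refine mul_ne_zero (mul_ne_zero k1 k2) ?_
    have e : ker (FF x) = (s ^ 9 * m⁻¹) • x := by
      rw [hkF, mul_smul]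
      congr 1
      conv_rhs => rw [hm]
      rw [smul_smul, inv_mul_cancel₀ hm0, one_smul]
    rw [e, ker_smul, KK_smul]
    refine mul_ne_zero (mul_ne_zero ?_ ?_) h2
    · exact pow_ne_zero _ (mul_ne_zero (pow_ne_zero _ hs0) (inv_ne_zero hm0))
    · exact pow_ne_zero _ (pow_ne_zero _ (mul_ne_zero (pow_ne_zero _ hs0) (inv_ne_zero hm0)))
  exact ⟨hden, by rw [FF_eq hden]; exact k3.symm⟩

/-- equivariance -/
lemma FF_act {g h : Matrix (Fin 3) (Fin 3) k} (hgh : gᵀ * h = 1) {x gx y : Fin 10 → k}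
    (hx : den x ≠ 0) (hgx : den gx ≠ 0) (e1 : tens gx = act g (tens x))
    (e2 : tens y = act h (tens (FF x))) : FF gx = y := by
  obtain ⟨h1, h2, h3, h4, h5, h6⟩ := den_facts hx
  obtain ⟨f1, f2, f3, f4, f5, f6⟩ := den_facts hgx
  have hF := FF_eq hx
  set s := II x (ker x) / KK x (ker x) with hs
  have hs0 : s ≠ 0 := div_ne_zero h1 h2
  have hB0 : BB x (FF x) = 0 := by
    rw [hF]
    rw [BB_smul_right, BB_ker, smul_zero]
  have hB : BB gx y = 0 := by
    rw [BB_def, e1, e2, Bm_act hgh]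
    rw [BB_def] at hB0
    rw [hB0]
    simp
  have hI : II gx y = s ^ 3 * II x (ker x) := by
    rw [II_def, e1, e2, trp_act hgh, hF, tens_smul, trp_smul_right, II_def]
  have hK : KK gx y = s ^ 4 * KK x (ker x) := by
    rw [KK_def, e1, e2, trp_act hgh, hF, tens_smul, trp_smul_right, KK_def]
  have hIK : II gx y = KK gx y := by
    rw [hI, hK, pow_succ s 3, mul_assoc, hs, div_mul_cancel₀ _ h2]
  have hI0 : II gx y ≠ 0 := by
    rw [hI]
    exact mul_ne_zero (pow_ne_zero _ hs0) h1
  obtain ⟨k1, k2, k3⟩ := key f4 hB hIK hI0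
  rw [FF_eq hgx, ← k3]

end core

section polycore

variable {k W : Type*} [Field k] [AddCommGroup W] [Module k W]

lemma pf_trp {t u : W → Ten k} (ht : ∀ i j a, (fun x => t x i j a) ∈ PolyFun k W)
    (hu : ∀ i j a, (fun x => u x i j a) ∈ PolyFun k W) (m : ℕ) :
    (fun x => trp m (t x) (u x)) ∈ PolyFun k W := by
  unfold trp
  refine pf_trace (pf_matpow ?_ m)
  rintro ⟨i, i'⟩ ⟨j', j⟩
  simp only [Rm_apply]
  exact pf_sum _ fun a _ => pf_mul (ht _ _ _) (hu _ _ _)

lemma pf_ker {c : W → Fin 10 → k} (hc : ∀ r, (fun x => c x r) ∈ PolyFun k W) (r : Fin 10) :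
    (fun x => ker (c x) r) ∈ PolyFun k W := by
  simp only [ker_def, cof]
  refine pf_mul (pf_const _) (pf_det fun p q => ?_)
  simp only [Matrix.submatrix_apply, MM, Matrix.of_apply, Bm_apply, tens]
  exact pf_sum _ fun a _ => pf_sum _ fun j _ => pf_mul (hc _) (pf_const _)

lemma pf_den {c : W → Fin 10 → k} (hc : ∀ r, (fun x => c x r) ∈ PolyFun k W) :
    (fun x => den (c x)) ∈ PolyFun k W := by
  simp only [den, II_def, KK_def]
  have h1 := pf_ker hc
  have h2 := pf_ker h1
  exact pf_mul (pf_mul (pf_trp (fun _ _ _ => hc _) (fun _ _ _ => h1 _) _)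
    (pf_trp (fun _ _ _ => hc _) (fun _ _ _ => h1 _) _))
    (pf_trp (fun _ _ _ => h1 _) (fun _ _ _ => h2 _) _)

lemma pf_num {c : W → Fin 10 → k} (hc : ∀ r, (fun x => c x r) ∈ PolyFun k W) (r : Fin 10) :
    (fun x => num (c x) r) ∈ PolyFun k W := by
  simp only [num, II_def, KK_def, Pi.smul_apply, smul_eq_mul]
  have h1 := pf_ker hc
  have h2 := pf_ker h1
  exact pf_mul (pf_mul (pf_pow (pf_trp (fun _ _ _ => hc _) (fun _ _ _ => h1 _) _) 2)
    (pf_trp (fun _ _ _ => h1 _) (fun _ _ _ => h2 _) _)) (h1 r)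

end polycore

section example_

variable {k : Type*} [Field k]

/-- forms of the Hesse pencil -/
def hs (a b : k) : Fin 10 → k := ![a, 0, 0, 0, b, 0, a, 0, 0, a]

lemma hesse_ker {a b : k} (ha : a ≠ 0) (hab : a ^ 3 + 8 * b ^ 3 ≠ 0) {v : Fin 10 → k}
    (hv : BB (hs a b) v = 0) : ∃ s : k, v = s • hs (2 * b) (-a) := by
  have E : ∀ i j, BB (hs a b) v i j = 0 := fun i j => by rw [hv]; rfl
  have e00 := E 0 0
  have e01 := E 0 1
  have e02 := E 0 2
  have e10 := E 1 0
  have e11 := E 1 1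
  have e12 := E 1 2
  have e20 := E 2 0
  have e21 := E 2 1
  have e22 := E 2 2
  simp [BB_def, Bm_apply, tens, idx, Fin.sum_univ_three, hs] at e00 e01 e02 e10 e11 e12 e20 e21 e22
  have z : ∀ {t : k}, (a ^ 3 + 8 * b ^ 3) * t = 0 → t = 0 := fun h =>
    (mul_eq_zero.mp h).resolve_left hab
  have v1 : v 1 = 0 := z (by linear_combination a ^ 2 * e01 - 2 * a * b * e12 + 4 * b ^ 2 * e20)
  have v7 : v 7 = 0 := z (by linear_combination a ^ 2 * e12 - 2 * a * b * e20 + 4 * b ^ 2 * e01)
  have v5 : v 5 = 0 := z (by linear_combination a ^ 2 * e20 - 2 * a * b * e01 + 4 * b ^ 2 * e12)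
  have v2 : v 2 = 0 := z (by linear_combination a ^ 2 * e02 - 2 * a * b * e21 + 4 * b ^ 2 * e10)
  have v8 : v 8 = 0 := z (by linear_combination a ^ 2 * e21 - 2 * a * b * e10 + 4 * b ^ 2 * e02)
  have v3 : v 3 = 0 := z (by linear_combination a ^ 2 * e10 - 2 * a * b * e02 + 4 * b ^ 2 * e21)
  have f0 : v 0 = -v 4 / a * (2 * b) := by field_simp; linear_combination e00
  have f4 : v 4 = -v 4 / a * (-a) := by field_simp
  have f6 : v 6 = -v 4 / a * (2 * b) := by field_simp; linear_combination e11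
  have f9 : v 9 = -v 4 / a * (2 * b) := by field_simp; linear_combination e22
  refine ⟨-v 4 / a, ?_⟩
  funext r
  fin_cases r
  · simpa [hs] using f0
  · simpa [hs] using v1
  · simpa [hs] using v2
  · simpa [hs] using v3
  · simpa [hs] using f4
  · simpa [hs] using v5
  · simpa [hs] using f6
  · simpa [hs] using v7
  · simpa [hs] using v8
  · simpa [hs] using f9

/-- the integral model of the endomorphism at the example -/
def mz : Matrix (Fin 3 × Fin 3) (Fin 3 × Fin 3) ℤ := Matrix.of fun p q =>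
  ∑ a, (![1, 0, 0, 0, -1, 0, 1, 0, 0, 1] : Fin 10 → ℤ) (idx p.1 q.2 a) *
    (![-2, 0, 0, 0, -1, 0, -2, 0, 0, -2] : Fin 10 → ℤ) (idx p.2 q.1 a)

lemma mz3 : (mz ^ 3).trace = -78 := by decide +kernel

lemma mz4 : (mz ^ 4).trace = 336 := by decide +kernel


lemma mz_map : Rm (tens (hs (1 : k) (-1))) (tens (hs (-2 : k) (-1))) =
    (Int.castRingHom k).mapMatrix mz := by
  ext ⟨i, i'⟩ ⟨j', j⟩
  rw [Rm_apply]
  simp only [RingHom.mapMatrix_apply, Matrix.map_apply, mz, Matrix.of_apply, map_sum, map_mul]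
  have h1 : ∀ r, (Int.castRingHom k) ((![1, 0, 0, 0, -1, 0, 1, 0, 0, 1] : Fin 10 → ℤ) r) =
      hs (1 : k) (-1) r := by
    intro r
    fin_cases r <;> simp [hs]
  have h2 : ∀ r, (Int.castRingHom k) ((![-2, 0, 0, 0, -1, 0, -2, 0, 0, -2] : Fin 10 → ℤ) r) =
      hs (-2 : k) (-1) r := by
    intro r
    fin_cases r <;> simp [hs]
  simp only [h1, h2, tens]

lemma trp_example (m : ℕ) : trp m (tens (hs (1 : k) (-1))) (tens (hs (-2 : k) (-1))) =
    (((mz ^ m).trace : ℤ) : k) := by
  rw [trp, mz_map, ← map_pow, RingHom.mapMatrix_apply]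
  simp only [Matrix.trace, Matrix.diag, Matrix.map_apply, Int.coe_castRingHom, Int.cast_sum]

lemma exists_den_ne_zero [CharZero k] : ∃ x : Fin 10 → k, den x ≠ 0 := by
  refine ⟨hs 1 (-1), ?_⟩
  set x₀ : Fin 10 → k := hs 1 (-1) with hx₀
  set v₀ : Fin 10 → k := hs (-2) (-1) with hv₀
  have n2 : (2 : k) ≠ 0 := two_ne_zero
  have hI : II x₀ v₀ ≠ 0 := by
    rw [II_def, hx₀, hv₀, trp_example, mz3]
    norm_num
  have hK : KK x₀ v₀ ≠ 0 := by
    rw [KK_def, hx₀, hv₀, trp_example, mz4]
    norm_num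
  have hv0 : v₀ ≠ 0 := by
    intro h
    rw [h, II_zero] at hI
    exact hI rfl
  have hx0 : x₀ ≠ 0 := by
    intro h
    rw [h, II_swap, II_zero] at hI
    exact hI rfl
  have k1 : ∀ v, BB x₀ v = 0 → ∃ s : k, v = s • v₀ := by
    intro v hv
    obtain ⟨s, hs'⟩ := hesse_ker (a := (1 : k)) (b := -1) one_ne_zero (by norm_num) hv
    refine ⟨s, ?_⟩
    rw [hs', hv₀]
    norm_num
  have k2 : ∀ v, BB v₀ v = 0 → ∃ s : k, v = s • x₀ := by
    intro v hv
    obtain ⟨s, hs'⟩ := hesse_ker (a := (-2 : k)) (b := -1) (neg_ne_zero.mpr n2) (by norm_num) hv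
    refine ⟨-2 * s, ?_⟩
    rw [hs', hx₀]
    funext r
    fin_cases r <;> simp [hs] <;> ring
  have c1 : ker x₀ ≠ 0 := ker_ne_zero hv0 k1
  have c2 : ker v₀ ≠ 0 := ker_ne_zero hx0 k2
  obtain ⟨s, hs1⟩ := k1 _ (BB_ker x₀)
  obtain ⟨r, hr1⟩ := k2 _ (BB_ker v₀)
  have s0 : s ≠ 0 := by
    rintro rfl
    exact c1 (by rw [hs1, zero_smul])
  have r0 : r ≠ 0 := by
    rintro rfl
    exact c2 (by rw [hr1, zero_smul])
  unfold den
  rw [hs1, ker_smul, hr1, smul_smul]
  have e1 := II_smul 1 s x₀ v₀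
  have e2 := KK_smul 1 s x₀ v₀
  simp only [one_smul, one_pow, one_mul] at e1 e2
  have hK' : KK v₀ x₀ ≠ 0 := by rwa [KK_swap]
  rw [e1, e2, KK_smul]
  exact mul_ne_zero (mul_ne_zero (mul_ne_zero (pow_ne_zero _ s0) hI)
    (mul_ne_zero (pow_ne_zero _ s0) hK))
    (mul_ne_zero (mul_ne_zero (pow_ne_zero _ s0)
      (pow_ne_zero _ (mul_ne_zero (pow_ne_zero _ s0) r0))) hK')

end example_

section coordinates

open MvPolynomial

variable {k : Type*} [Field k]

/-- the exponent of `X_i X_j X_a` -/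
noncomputable def mon (i j a : Fin 3) : Fin 3 →₀ ℕ :=
  Finsupp.single i 1 + Finsupp.single j 1 + Finsupp.single a 1

lemma mon_apply (i j a x : Fin 3) : mon i j a x =
    (if i = x then 1 else 0) + (if j = x then 1 else 0) + (if a = x then 1 else 0) := by
  simp [mon, Finsupp.single_apply]

lemma mon_aux : ∀ i j a i' j' a' : Fin 3,
    (∀ x : Fin 3, (if i = x then 1 else 0) + (if j = x then 1 else 0) + (if a = x then 1 else 0) =
      (if i' = x then 1 else 0) + (if j' = x then 1 else 0) + (if a' = x then 1 else 0)) ↔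
    idx i j a = idx i' j' a' := by decide +kernel

lemma mon_eq_iff (i j a i' j' a' : Fin 3) :
    mon i j a = mon i' j' a' ↔ idx i j a = idx i' j' a' := by
  rw [← mon_aux, Finsupp.ext_iff]
  simp only [mon_apply]

lemma ex_aux : ∀ p q r : Fin 4, (p : ℕ) + q + r = 3 → ∃ i j a : Fin 3, ∀ x : Fin 3,
    (![(p : ℕ), q, r] : Fin 3 → ℕ) x =
      (if i = x then 1 else 0) + (if j = x then 1 else 0) + (if a = x then 1 else 0) := by
  decide +kernel

lemma exists_mon {m : Fin 3 →₀ ℕ} (hm : m.degree = 3) : ∃ i j a, m = mon i j a := by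
  rw [Finsupp.degree_eq_sum, Fin.sum_univ_three] at hm
  obtain ⟨i, j, a, h⟩ := ex_aux ⟨m 0, by omega⟩ ⟨m 1, by omega⟩ ⟨m 2, by omega⟩ hm
  refine ⟨i, j, a, Finsupp.ext fun x => ?_⟩
  rw [mon_apply, ← h x]
  fin_cases x <;> rfl

/-- multiplicities -/
def NN (r : Fin 10) : ℕ := ∑ i, ∑ j, ∑ a, if idx i j a = r then 1 else 0

lemma NN_pos : ∀ r, NN r ≠ 0 := by decide +kernel

/-- the cubic form of a tensor -/
noncomputable def Pol (t : Ten k) : MvPolynomial (Fin 3) k :=
  ∑ i, ∑ j, ∑ a, C (t i j a) * (X i * X j * X a)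

lemma Pol_eq (t : Ten k) : Pol t = ∑ i, ∑ j, ∑ a, monomial (mon i j a) (t i j a) := by
  unfold Pol
  refine Finset.sum_congr rfl fun i _ => Finset.sum_congr rfl fun j _ =>
    Finset.sum_congr rfl fun a _ => ?_
  simp [X, monomial_mul, C_mul_monomial, mon]

lemma coeff_Pol (u : Fin 10 → k) (i j a : Fin 3) :
    coeff (mon i j a) (Pol (tens u)) = NN (idx i j a) * u (idx i j a) := by
  rw [Pol_eq]
  simp only [coeff_sum, coeff_monomial, mon_eq_iff, NN, Nat.cast_sum, Finset.sum_mul]
  refine Finset.sum_congr rfl fun i' _ => Finset.sum_congr rfl fun j' _ =>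
    Finset.sum_congr rfl fun a' _ => ?_
  by_cases h : idx i' j' a' = idx i j a
  · simp [h, tens]
  · simp [h]

lemma Pol_mem (t : Ten k) : Pol t ∈ V k 3 := by
  rw [mem_homogeneousSubmodule]
  refine IsHomogeneous.sum _ _ _ fun i _ => IsHomogeneous.sum _ _ _ fun j _ =>
    IsHomogeneous.sum _ _ _ fun a _ => ?_
  exact ((((isHomogeneous_X k i).mul (isHomogeneous_X k j)).mul (isHomogeneous_X k a)).C_mul _)

lemma Pol_injective [CharZero k] {u v : Fin 10 → k} (h : Pol (tens u) = Pol (tens v)) :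
    u = v := by
  funext r
  have h1 := coeff_Pol u (rep r).1 (rep r).2.1 (rep r).2.2
  have h2 := coeff_Pol v (rep r).1 (rep r).2.1 (rep r).2.2
  rw [h, h2, idx_rep] at h1
  exact (mul_left_cancel₀ (Nat.cast_ne_zero.mpr (NN_pos r)) h1).symm

lemma Pol_surjective [CharZero k] {f : MvPolynomial (Fin 3) k} (hf : f ∈ V k 3) :
    ∃ u, Pol (tens u) = f := by
  refine ⟨fun r => coeff (mon (rep r).1 (rep r).2.1 (rep r).2.2) f / NN r, ?_⟩
  ext m
  by_cases hm : m.degree = 3
  · obtain ⟨i, j, a, rfl⟩ := exists_mon hm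
    rw [coeff_Pol, mul_div_cancel₀ _ (Nat.cast_ne_zero.mpr (NN_pos _))]
    congr 1
    rw [mon_eq_iff, idx_rep]
  · have h1 := Pol_mem (tens fun r => coeff (mon (rep r).1 (rep r).2.1 (rep r).2.2) f / NN r)
    rw [mem_homogeneousSubmodule] at h1 hf
    rw [h1.coeff_eq_zero hm, hf.coeff_eq_zero hm]

lemma prod3 {R : Type*} [CommSemiring R] (A B D : Fin 3 → R) :
    (∑ i, A i) * (∑ j, B j) * (∑ a, D a) = ∑ i, ∑ j, ∑ a, A i * B j * D a := by
  rw [Finset.sum_mul_sum, Finset.sum_mul]
  refine Finset.sum_congr rfl fun i _ => ?_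
  rw [Finset.sum_mul]
  refine Finset.sum_congr rfl fun j _ => ?_
  rw [Finset.mul_sum]

lemma comm3 {R : Type*} [AddCommMonoid R]
    (F : Fin 3 → Fin 3 → Fin 3 → Fin 3 → Fin 3 → Fin 3 → R) :
    ∑ p, ∑ q, ∑ r, ∑ i, ∑ j, ∑ a, F p q r i j a = ∑ i, ∑ j, ∑ a, ∑ p, ∑ q, ∑ r, F p q r i j a := by
  have := Finset.sum_comm (s := (Finset.univ : Finset (Fin 3 × Fin 3 × Fin 3)))
    (t := (Finset.univ : Finset (Fin 3 × Fin 3 × Fin 3)))
    (f := fun x y => F x.1 x.2.1 x.2.2 y.1 y.2.1 y.2.2)
  simpa only [Fintype.sum_prod_type] using this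

lemma subst_Pol (g : Matrix (Fin 3) (Fin 3) k) (t : Ten k) :
    subst g (Pol t) = Pol (act g t) := by
  calc subst g (Pol t)
      = ∑ p, ∑ q, ∑ r, C (t p q r) * ((∑ i, C (g i p) * X i) * (∑ j, C (g j q) * X j) *
          (∑ a, C (g a r) * X a)) := by
        simp only [Pol, map_sum, map_mul, subst_X, algHom_C, algebraMap_eq]
    _ = ∑ p, ∑ q, ∑ r, ∑ i, ∑ j, ∑ a,
          C (g i p * g j q * g a r * t p q r) * (X i * X j * X a) := by
        refine Finset.sum_congr rfl fun p _ => Finset.sum_congr rfl fun q _ =>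
          Finset.sum_congr rfl fun r _ => ?_
        rw [prod3, Finset.mul_sum]
        refine Finset.sum_congr rfl fun i _ => ?_
        rw [Finset.mul_sum]
        refine Finset.sum_congr rfl fun j _ => ?_
        rw [Finset.mul_sum]
        refine Finset.sum_congr rfl fun a _ => ?_
        simp only [map_mul]
        ring
    _ = Pol (act g t) := by
        rw [comm3]
        unfold Pol act
        simp only [map_sum, Finset.sum_mul]

lemma tens_add (u v : Fin 10 → k) : tens (u + v) = tens u + tens v := rfl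

/-- coordinates on the space of ternary cubics -/
noncomputable def coordSymm (k : Type*) [Field k] [CharZero k] : (Fin 10 → k) ≃ₗ[k] V k 3 :=
  LinearEquiv.ofBijective
    { toFun := fun u => ⟨Pol (tens u), Pol_mem _⟩
      map_add' := by
        intro u v
        apply Subtype.ext
        simp only [Pol, tens_add, Pi.add_apply, map_add, add_mul, Finset.sum_add_distrib,
          Submodule.coe_add]
      map_smul' := by
        intro s u
        apply Subtype.ext
        simp only [Pol, tens_smul, Pi.smul_apply, smul_eq_mul, map_mul, RingHom.id_apply,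
          Submodule.coe_smul, MvPolynomial.smul_eq_C_mul, Finset.mul_sum, mul_assoc] }
    ⟨fun u v h => Pol_injective (Subtype.ext_iff.mp h), fun f => by
      obtain ⟨u, hu⟩ := Pol_surjective f.2
      exact ⟨u, Subtype.ext hu⟩⟩

lemma coordSymm_apply [CharZero k] (u : Fin 10 → k) :
    ((coordSymm k u : V k 3) : MvPolynomial (Fin 3) k) = Pol (tens u) := rfl

lemma tens_coord [CharZero k] (g : SpecialLinearGroup (Fin 3) k) (x : V k 3) :
    tens ((coordSymm k).symm (slRep k 3 g x)) = act g (tens ((coordSymm k).symm x)) := by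
  obtain ⟨u, rfl⟩ := (coordSymm k).surjective x
  obtain ⟨v, hv⟩ := exists_tens (act_sym (g := (g : Matrix (Fin 3) (Fin 3) k)) (tens_sym u))
  have : slRep k 3 g (coordSymm k u) = coordSymm k v := by
    apply Subtype.ext
    rw [coordSymm_apply, hv, ← subst_Pol]
    rfl
  rw [this, LinearEquiv.symm_apply_apply, LinearEquiv.symm_apply_apply, hv]

end coordinates

/-- **Ternary cubics.** Over every field of characteristic zero (in particular over every
algebraically closed one) the `G`-modules `V = S^3(k^3)` and its twist by `σ` are birationally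
`G`-isomorphic, where `G = SL_3/μ_3`. -/
theorem result (k : Type*) [Field k] [CharZero k] :
    BirationallyIsomorphic (gRep k 3) ((gRep k 3).comp (sigma k 3).toMonoidHom) := by
  set e := (coordSymm k).symm with he
  have hcoord : ∀ r, (fun x => e x r) ∈ PolyFun k (V k 3) := by
    intro r
    exact Algebra.subset_adjoin ⟨(LinearMap.proj r).comp e.toLinearMap, rfl⟩
  have hfrac : ∀ x, frac (fun x => den (e x)) (fun x => e.symm (num (e x))) x =
      e.symm (FF (e x)) := by
    intro x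
    rw [frac, FF, map_smul]
  have hP : IsPolyMap k (fun x : V k 3 => e.symm (num (e x))) := by
    intro ℓ
    have h1 : (fun x : V k 3 => ℓ (e.symm (num (e x)))) = fun x : V k 3 =>
        ∑ r, num (e x) r * ℓ (e.symm fun j => if r = j then 1 else 0) := by
      funext x
      exact LinearMap.pi_apply_eq_sum_univ (ℓ.comp e.symm.toLinearMap) (num (e x))
    rw [h1]
    exact pf_sum _ fun r _ => pf_mul (pf_num hcoord r) (pf_const _)
  have hne : (fun x : V k 3 => den (e x)) ≠ 0 := by
    obtain ⟨x, hx⟩ := exists_den_ne_zero (k := k)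
    intro h
    have := congrFun h (e.symm x)
    simp only [LinearEquiv.apply_symm_apply] at this
    exact hx this
  have hinv : ∀ x : V k 3, den (e x) ≠ 0 →
      den (e (frac (fun x => den (e x)) (fun x => e.symm (num (e x))) x)) ≠ 0 ∧
      frac (fun x => den (e x)) (fun x => e.symm (num (e x)))
        (frac (fun x => den (e x)) (fun x => e.symm (num (e x))) x) = x := by
    intro x hx
    obtain ⟨h1, h2⟩ := FF_invol hx
    rw [hfrac, hfrac, LinearEquiv.apply_symm_apply, h2, LinearEquiv.symm_apply_apply]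
    exact ⟨h1, rfl⟩
  refine ⟨fun x => den (e x), fun x => e.symm (num (e x)), fun x => den (e x),
    fun x => e.symm (num (e x)), pf_den hcoord, hP, pf_den hcoord, hP, hne, hne, hinv, hinv, ?_⟩
  intro h x hx hhx
  obtain ⟨g, rfl⟩ := QuotientGroup.mk_surjective h
  rw [hfrac, hfrac]
  change e.symm (FF (e (slRep k 3 g x))) = slRep k 3 (sigmaSL k 3 g) (e.symm (FF (e x)))
  rw [LinearEquiv.symm_apply_eq]
  have hgh : (g : Matrix (Fin 3) (Fin 3) k)ᵀ *
      ((sigmaSL k 3 g : SpecialLinearGroup (Fin 3) k) : Matrix (Fin 3) (Fin 3) k) = 1 := by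
    have : g.transpose * sigmaSL k 3 g = 1 := mul_inv_cancel _
    exact congrArg Subtype.val this
  refine FF_act hgh hx hhx (tens_coord g x) ?_
  rw [tens_coord, he, LinearEquiv.symm_symm, LinearEquiv.symm_apply_apply]

end Pool.Agent.Results.MP_107daa_ag.TernaryCubics
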